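import Pool.Agent.Spiral83.Upper

/-!
Lower bound for the area of the neighbourhoods of the model spiral.
-/

open MeasureTheory Filter Topology Set

namespace Pool.Agent.Spiral83

lemma gam_re {m n k : ℕ} {α s : ℝ} (hm : Odd m) (hs : 0 < s) {a b : ℝ}
    (ha : a = 1 / (2 * m * k)) :
    (gam a b m n k α s).re = ort m (s ^ (-(1 / (2 * (k : ℝ)))) * Real.cos (s / (2 * k) + α)) := by
  rw [ort_mul hm (Real.rpow_nonneg hs.le _), ← Real.rpow_mul hs.le]
  simp only [gam]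
  congr 2
  rw [ha]
  ring

lemma gam_im {m n k : ℕ} {α s : ℝ} (hn : Odd n) (hs : 0 < s) {a b : ℝ}
    (hb : b = 1 / (2 * n * k)) :
    (gam a b m n k α s).im = ort n (s ^ (-(1 / (2 * (k : ℝ)))) * Real.sin (s / (2 * k) + α)) := by
  rw [ort_mul hn (Real.rpow_nonneg hs.le _), ← Real.rpow_mul hs.le]
  simp only [gam]
  congr 2
  rw [hb]
  ring

/-- closeness -/
lemma close {m n k : ℕ} (α : ℝ) (hm : Odd m) (hn : Odd n) (hk : 1 ≤ k) {a b : ℝ}
    (ha : a = 1 / (2 * m * k)) (hb : b = 1 / (2 * n * k)) {x0 y0 t : ℝ} (hy0 : 0 < y0)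
    (hxy : |x0 ^ m| ≤ y0 ^ n) (ht : t = (((x0 ^ m) ^ 2 + (y0 ^ n) ^ 2) ^ k)⁻¹)
    (htbig : 6 * Real.pi * k ≤ t) :
    ∃ s, t ≤ s ∧ dist (⟨x0, y0⟩ : ℂ) (gam a b m n k α s) ≤ 12 * Real.pi * k * y0 / t := by
  have hpi := Real.pi_pos
  have hk1 : (1 : ℝ) ≤ k := by exact_mod_cast hk
  have hk0 : (0 : ℝ) < k := by linarith
  set κ : ℝ := 1 / (2 * (k : ℝ)) with hκ
  have hκpos : 0 < κ := by positivity
  have hκhalf : κ ≤ 1 / 2 := by
    rw [hκ, div_le_div_iff₀ (by positivity) (by norm_num)]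
    linarith
  set X0 := x0 ^ m with hX0
  set Y0 := y0 ^ n with hY0
  have hY0pos : 0 < Y0 := by positivity
  set H0 := X0 ^ 2 + Y0 ^ 2 with hH0
  have hH0pos : 0 < H0 := by positivity
  have htpos : 0 < t := by rw [ht]; positivity
  have htH : t ^ (-(2 * κ)) = H0 := by
    rw [ht, ← Real.rpow_natCast, ← Real.rpow_neg hH0pos.le, ← Real.rpow_mul hH0pos.le]
    have : -(k : ℝ) * -(2 * κ) = 1 := by rw [hκ]; field_simp
    rw [this, Real.rpow_one]
  have hXY : X0 ^ 2 ≤ Y0 ^ 2 := by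
    rw [← sq_abs X0]
    exact pow_le_pow_left₀ (abs_nonneg _) hxy 2
  -- choose the turn
  set M : ℤ := ⌈(t / (2 * k) + α) / (2 * Real.pi)⌉ with hM
  have hM1 := Int.le_ceil ((t / (2 * k) + α) / (2 * Real.pi))
  have hM2 := Int.ceil_lt_add_one ((t / (2 * k) + α) / (2 * Real.pi))
  rw [← hM] at hM1 hM2
  rw [div_le_iff₀ (by positivity)] at hM1
  rw [← sub_lt_iff_lt_add, lt_div_iff₀ (by positivity)] at hM2
  set sa : ℝ := 2 * k * (M * (2 * Real.pi) - α) with hsa
  set sb : ℝ := sa + 2 * Real.pi * k with hsb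
  have hta : t ≤ sa := by
    have h1 : t / (2 * k) ≤ M * (2 * Real.pi) - α := by linarith
    rw [div_le_iff₀ (by positivity)] at h1
    rw [hsa]
    linarith
  have hat : sa ≤ t + 4 * Real.pi * k := by
    have h1 : M * (2 * Real.pi) - α - 2 * Real.pi ≤ t / (2 * k) := by linarith
    rw [le_div_iff₀ (by positivity)] at h1
    rw [hsa]
    linarith
  have hbt : sb ≤ t + 6 * Real.pi * k := by rw [hsb]; linarith
  have hb2 : sb ≤ 2 * t := by linarith
  have hab : sa ≤ sb := by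
    rw [hsb]
    have : 0 ≤ 2 * Real.pi * k := by positivity
    linarith
  have hsapos : 0 < sa := by linarith
  have hsbpos : 0 < sb := by linarith
  have hthA : sa / (2 * k) + α = M * (2 * Real.pi) := by
    rw [hsa]; field_simp; ring
  have hthB : sb / (2 * k) + α = Real.pi + M * (2 * Real.pi) := by
    rw [hsb, hsa]; field_simp; ring
  have hX0b : |X0| ≤ sb ^ (-κ) := by
    have h1 : (2 * t) ^ (-κ) ≤ sb ^ (-κ) :=
      Real.rpow_le_rpow_of_nonpos hsbpos hb2 (by linarith)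
    refine le_trans ?_ h1
    apply abs_le_of_sq_le_sq _ (by positivity)
    rw [← Real.rpow_natCast ((2 * t) ^ (-κ)), ← Real.rpow_mul (by positivity),
      Real.mul_rpow (by norm_num) htpos.le]
    have e1 : -κ * ((2 : ℕ) : ℝ) = -(2 * κ) := by push_cast; ring
    rw [e1, htH]
    have h2 : (1 : ℝ) / 2 ≤ 2 ^ (-(2 * κ)) := by
      calc (1 : ℝ) / 2 = 2 ^ (-1 : ℝ) := by rw [Real.rpow_neg_one]; norm_num
        _ ≤ 2 ^ (-(2 * κ)) := Real.rpow_le_rpow_of_exponent_le (by norm_num) (by linarith)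
    nlinarith
  have hcont : ContinuousOn (fun s : ℝ => s ^ (-κ) * Real.cos (s / (2 * k) + α)) (Icc sa sb) := by
    apply ContinuousOn.mul
    · apply ContinuousOn.rpow_const continuousOn_id
      intro s hs
      left
      exact (lt_of_lt_of_le hsapos hs.1).ne'
    · fun_prop
  have hmem : X0 ∈ Icc ((fun s : ℝ => s ^ (-κ) * Real.cos (s / (2 * k) + α)) sb)
      ((fun s : ℝ => s ^ (-κ) * Real.cos (s / (2 * k) + α)) sa) := by
    simp only
    rw [hthA, hthB, Real.cos_add_int_mul_two_pi, Real.cos_pi, Real.cos_int_mul_two_pi]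
    have h1 : sb ^ (-κ) ≤ sa ^ (-κ) := Real.rpow_le_rpow_of_nonpos hsapos hab (by linarith)
    rw [abs_le] at hX0b
    constructor <;> linarith [hX0b.1, hX0b.2]
  obtain ⟨s, hs, hXs⟩ := intermediate_value_Icc' hab hcont hmem
  simp only at hXs
  have hspos : 0 < s := lt_of_lt_of_le hsapos hs.1
  have hts : t ≤ s := le_trans hta hs.1
  have hsin : 0 ≤ Real.sin (s / (2 * k) + α) := by
    rw [← Real.sin_sub_int_mul_two_pi _ M]
    apply Real.sin_nonneg_of_nonneg_of_le_pi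
    · rw [← hthA]
      have := hs.1
      have : sa / (2 * k) ≤ s / (2 * k) := by gcongr
      linarith
    · have h1 := hs.2
      have : s / (2 * k) ≤ sb / (2 * k) := by gcongr
      linarith
  set Y := s ^ (-κ) * Real.sin (s / (2 * k) + α) with hY
  have hY0' : 0 ≤ Y := mul_nonneg (Real.rpow_nonneg hspos.le _) hsin
  have hsum : X0 ^ 2 + Y ^ 2 = s ^ (-(2 * κ)) := by
    rw [← hXs, hY, mul_pow, mul_pow, ← mul_add, Real.cos_sq_add_sin_sq, mul_one,
      ← Real.rpow_natCast, ← Real.rpow_mul hspos.le]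
    congr 1
    push_cast
    ring
  have hYle : Y ^ 2 ≤ Y0 ^ 2 := by
    have : s ^ (-(2 * κ)) ≤ t ^ (-(2 * κ)) :=
      Real.rpow_le_rpow_of_nonpos htpos hts (by linarith)
    rw [htH] at this
    linarith
  have hYdiff : Y0 ^ 2 - Y ^ 2 ≤ Y0 ^ 2 * (12 * Real.pi * k / t) := by
    have e1 : Y0 ^ 2 - Y ^ 2 = H0 - s ^ (-(2 * κ)) := by rw [← hsum]; ring
    have e2 : s ^ (-(2 * κ)) = H0 * (s / t) ^ (-(2 * κ)) := by
      rw [← htH, ← Real.mul_rpow htpos.le (by positivity)]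
      congr 1
      field_simp
    have hst : 1 ≤ s / t := by rw [le_div_iff₀ htpos]; linarith
    have e3 : (s / t) ^ (-1 : ℝ) ≤ (s / t) ^ (-(2 * κ)) :=
      Real.rpow_le_rpow_of_exponent_le hst (by linarith)
    have e4 : 1 - 6 * Real.pi * k / t ≤ (s / t) ^ (-1 : ℝ) := by
      rw [Real.rpow_neg_one, inv_div]
      rw [le_div_iff₀ hspos]
      have hs2 : s ≤ t + 6 * Real.pi * k := le_trans hs.2 hbt
      have h5 : (1 - 6 * Real.pi * k / t) * s = s - (6 * Real.pi * k) * (s / t) := by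
        field_simp
      rw [h5]
      have h6 : (6 * Real.pi * k) * 1 ≤ (6 * Real.pi * k) * (s / t) :=
        mul_le_mul_of_nonneg_left hst (by positivity)
      linarith
    have e5 : H0 * (1 - 6 * Real.pi * k / t) ≤ s ^ (-(2 * κ)) := by
      rw [e2]
      exact mul_le_mul_of_nonneg_left (by linarith) hH0pos.le
    have e6 : H0 ≤ 2 * Y0 ^ 2 := by linarith
    have e7 : H0 * (6 * Real.pi * k / t) ≤ (2 * Y0 ^ 2) * (6 * Real.pi * k / t) :=
      mul_le_mul_of_nonneg_right e6 (by positivity)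
    have e8 : (2 * Y0 ^ 2) * (6 * Real.pi * k / t) = Y0 ^ 2 * (12 * Real.pi * k / t) := by ring
    rw [e1]
    linarith
  refine ⟨s, hts, ?_⟩
  have hre : (gam a b m n k α s).re = x0 := by
    rw [gam_re hm hspos ha, ← hκ, hXs]
    exact (ort_unique hm rfl).symm
  have him : (gam a b m n k α s).im = ort n Y := by
    rw [gam_im hn hspos hb]
  set y := ort n Y with hy
  have hyn : y ^ n = Y := ort_pow hn Y
  have hy0' : 0 ≤ y := by
    have h0 : ort n 0 = 0 := (ort_unique hn (zero_pow hn.pos.ne')).symm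
    rw [← h0]
    exact ort_mono hn hY0'
  have hYY : Y ≤ Y0 := by
    exact abs_le_of_sq_le_sq' hYle hY0pos.le |>.2
  have hyy : y ≤ y0 := by
    rw [← hn.pow_le_pow, hyn]
    exact hYY
  have hdist : dist (⟨x0, y0⟩ : ℂ) (gam a b m n k α s) = y0 - y := by
    have e : (⟨x0, y0⟩ : ℂ) - gam a b m n k α s = ((y0 - y : ℝ) : ℂ) * Complex.I := by
      apply Complex.ext
      · simp [hre]
      · simp [him]
    rw [dist_eq_norm, e, norm_mul, Complex.norm_I, mul_one, Complex.norm_real,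
      Real.norm_of_nonneg (by linarith)]
  rw [hdist]
  -- y0 ^ (2n) - y ^ (2n) ≥ y0 ^ (2n-1) (y0 - y)
  have hpow : y0 ^ (2 * n - 1) * (y0 - y) ≤ Y0 ^ 2 - Y ^ 2 := by
    have e1 : Y0 ^ 2 = y0 ^ (2 * n - 1) * y0 := by
      rw [hY0, ← pow_mul, ← pow_succ]
      congr 1
      have := hn.pos
      omega
    have e2 : Y ^ 2 = y ^ (2 * n - 1) * y := by
      rw [← hyn, ← pow_mul, ← pow_succ]
      congr 1
      have := hn.pos
      omega
    have e3 : y ^ (2 * n - 1) ≤ y0 ^ (2 * n - 1) := pow_le_pow_left₀ hy0' hyy _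
    have e4 : y ^ (2 * n - 1) * y ≤ y0 ^ (2 * n - 1) * y := mul_le_mul_of_nonneg_right e3 hy0'
    rw [e1, e2]
    linarith
  have hfin : y0 ^ (2 * n - 1) * (y0 - y) ≤ y0 ^ (2 * n - 1) * (12 * Real.pi * k * y0 / t) := by
    refine hpow.trans (hYdiff.trans (le_of_eq ?_))
    have e1 : Y0 ^ 2 = y0 ^ (2 * n - 1) * y0 := by
      rw [hY0, ← pow_mul, ← pow_succ]
      congr 1
      have := hn.pos
      omega
    rw [e1]
    ring
  exact le_of_mul_le_mul_left hfin (by positivity)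

/-- lower bound -/
theorem lower {m n k : ℕ} (α : ℝ) (hm : Odd m) (hn : Odd n) (hmn : n ≤ m) (hk : 1 ≤ k) {a b : ℝ}
    (ha : a = 1 / (2 * m * k)) (hb : b = 1 / (2 * n * k)) (s1 : ℝ) :
    ∃ c δ0 : ℝ, 0 < c ∧ 0 < δ0 ∧ ∀ δ : ℝ, 0 < δ → δ ≤ δ0 →
      ENNReal.ofReal (c * δ ^ ((a + b) / (1 + b))) ≤
        volume (Metric.cthickening δ (gam a b m n k α '' Ici s1)) := by
  have hpi := Real.pi_pos
  have hk1 : (1 : ℝ) ≤ k := by exact_mod_cast hk
  have hk0 : (0 : ℝ) < k := by linarith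
  have hm0 : (0 : ℝ) < m := by exact_mod_cast hm.pos
  have hn0 : (0 : ℝ) < n := by exact_mod_cast hn.pos
  have hapos : 0 < a := by rw [ha]; positivity
  have hbpos : 0 < b := by rw [hb]; positivity
  set C : ℝ := 12 * Real.pi * k * 2 ^ k with hC
  have hCpos : 0 < C := by positivity
  set J1 : ℝ := 2 ^ k * max (6 * Real.pi * k) s1 with hJ1
  have hJ1pos : 0 < J1 := by
    have : 0 < max (6 * Real.pi * k) s1 := lt_of_lt_of_le (by positivity) (le_max_left _ _)
    positivity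
  refine ⟨1 / 2 * C ^ (-((a + b) / (1 + b))), C * J1 ^ (-(1 + b)), by positivity, by positivity,
    ?_⟩
  intro δ hδ hδ0
  set J : ℝ := (C / δ) ^ (1 / (1 + b)) with hJ
  have hJpos : 0 < J := by positivity
  have hJJ : J1 ≤ J := by
    have h1 : J1 ^ (1 + b) ≤ C / δ := by
      rw [le_div_iff₀ hδ]
      rw [Real.rpow_neg hJ1pos.le] at hδ0
      have : 0 < J1 ^ (1 + b) := by positivity
      calc J1 ^ (1 + b) * δ ≤ J1 ^ (1 + b) * (C * (J1 ^ (1 + b))⁻¹) :=
            mul_le_mul_of_nonneg_left hδ0 this.le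
        _ = C := by field_simp
    have h2 : J1 = (J1 ^ (1 + b)) ^ (1 / (1 + b)) := by
      rw [← Real.rpow_mul hJ1pos.le]
      have : (1 + b) * (1 / (1 + b)) = 1 := by field_simp
      rw [this, Real.rpow_one]
    rw [h2, hJ]
    exact Real.rpow_le_rpow (by positivity) h1 (by positivity)
  have hJδ : C * J ^ (-(1 + b)) = δ := by
    rw [hJ, ← Real.rpow_mul (by positivity)]
    have : 1 / (1 + b) * -(1 + b) = -1 := by field_simp
    rw [this, Real.rpow_neg_one]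
    field_simp
  have hsub : {z : ℂ | z.re ∈ Icc (-(J ^ (-a) / 2)) (J ^ (-a) / 2) ∧
      z.im ∈ Icc (J ^ (-b) / 2) (J ^ (-b))} ⊆
        Metric.cthickening δ (gam a b m n k α '' Ici s1) := by
    rintro ⟨x0, y0⟩ ⟨hx, hy⟩
    simp only at hx hy
    have hJb : 0 < J ^ (-b) := by positivity
    have hJa : 0 < J ^ (-a) := by positivity
    have hy0 : 0 < y0 := by linarith [hy.1]
    have hx' : |x0| ≤ J ^ (-a) / 2 := abs_le.2 hx
    have hJam : (J ^ (-a)) ^ m = J ^ (-(1 / (2 * (k : ℝ)))) := by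
      rw [← Real.rpow_natCast, ← Real.rpow_mul hJpos.le]
      congr 1
      rw [ha]; field_simp
    have hJbn : (J ^ (-b)) ^ n = J ^ (-(1 / (2 * (k : ℝ)))) := by
      rw [← Real.rpow_natCast, ← Real.rpow_mul hJpos.le]
      congr 1
      rw [hb]; field_simp
    have hxm : |x0 ^ m| ≤ J ^ (-(1 / (2 * (k : ℝ)))) / 2 ^ m := by
      rw [abs_pow, ← hJam, ← div_pow]
      exact pow_le_pow_left₀ (abs_nonneg _) hx' m
    have hyn : J ^ (-(1 / (2 * (k : ℝ)))) / 2 ^ n ≤ y0 ^ n := by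
      rw [← hJbn, ← div_pow]
      exact pow_le_pow_left₀ (by positivity) hy.1 n
    have hyn' : y0 ^ n ≤ J ^ (-(1 / (2 * (k : ℝ)))) := by
      rw [← hJbn]
      exact pow_le_pow_left₀ hy0.le hy.2 n
    have hxy : |x0 ^ m| ≤ y0 ^ n := by
      refine hxm.trans (le_trans ?_ hyn)
      have : (2 : ℝ) ^ n ≤ 2 ^ m := pow_le_pow_right₀ (by norm_num) hmn
      gcongr
    set t : ℝ := (((x0 ^ m) ^ 2 + (y0 ^ n) ^ 2) ^ k)⁻¹ with ht
    have hH : (x0 ^ m) ^ 2 + (y0 ^ n) ^ 2 ≤ 2 * (J ^ (-(1 / (k : ℝ)))) := by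
      have h1 : (x0 ^ m) ^ 2 ≤ (y0 ^ n) ^ 2 := by
        rw [← sq_abs (x0 ^ m)]
        exact pow_le_pow_left₀ (abs_nonneg _) hxy 2
      have h2 : (y0 ^ n) ^ 2 ≤ (J ^ (-(1 / (2 * (k : ℝ))))) ^ 2 :=
        pow_le_pow_left₀ (by positivity) hyn' 2
      have h3 : (J ^ (-(1 / (2 * (k : ℝ))))) ^ 2 = J ^ (-(1 / (k : ℝ))) := by
        rw [← Real.rpow_natCast, ← Real.rpow_mul hJpos.le]
        congr 1
        push_cast
        field_simp
      linarith
    have hHpos : 0 < (x0 ^ m) ^ 2 + (y0 ^ n) ^ 2 := by positivity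
    have htJ : J / 2 ^ k ≤ t := by
      rw [ht]
      have h1 : ((x0 ^ m) ^ 2 + (y0 ^ n) ^ 2) ^ k ≤ (2 * (J ^ (-(1 / (k : ℝ))))) ^ k :=
        pow_le_pow_left₀ hHpos.le hH k
      have h2 : (2 * (J ^ (-(1 / (k : ℝ))))) ^ k = 2 ^ k * J⁻¹ := by
        rw [mul_pow, ← Real.rpow_natCast (J ^ (-(1 / (k : ℝ)))), ← Real.rpow_mul hJpos.le]
        have : -(1 / (k : ℝ)) * (k : ℝ) = -1 := by field_simp
        rw [this, Real.rpow_neg_one]
      rw [h2] at h1
      have h3 := inv_anti₀ (by positivity) h1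
      refine le_trans (le_of_eq ?_) h3
      field_simp
    have htbig : max (6 * Real.pi * k) s1 ≤ t := by
      refine le_trans ?_ htJ
      rw [le_div_iff₀ (by positivity)]
      rw [hJ1] at hJJ
      linarith
    have htpos : 0 < t := by rw [ht]; positivity
    obtain ⟨s, hs, hd⟩ := close α hm hn hk ha hb hy0 hxy ht (le_trans (le_max_left _ _) htbig)
    have hmemS : gam a b m n k α s ∈ gam a b m n k α '' Ici s1 :=
      ⟨s, le_trans (le_trans (le_max_right _ _) htbig) hs, rfl⟩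
    apply Metric.mem_cthickening_of_dist_le _ (gam a b m n k α s) _ _ hmemS
    · refine hd.trans ?_
      rw [← hJδ, hC]
      have h1 : 12 * Real.pi * k * y0 / t ≤ 12 * Real.pi * k * (J ^ (-b)) / (J / 2 ^ k) := by
        gcongr
        exact hy.2
      refine h1.trans (le_of_eq ?_)
      rw [show -(1 + b) = -b - 1 by ring, Real.rpow_sub_one hJpos.ne']
      field_simp
  refine le_trans (le_of_eq ?_) (measure_mono hsub)
  rw [volume_box _ _ _ _ (by
    have : 0 < J ^ (-a) := by positivity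
    linarith)]
  congr 1
  have e1 : (J ^ (-a) / 2 - -(J ^ (-a) / 2)) * (J ^ (-b) - J ^ (-b) / 2) =
      1 / 2 * (J ^ (-a) * J ^ (-b)) := by ring
  rw [e1, ← Real.rpow_add hJpos, hJ, ← Real.rpow_mul (by positivity), Real.div_rpow hCpos.le hδ.le]
  have e2 : 1 / (1 + b) * (-a + -b) = -((a + b) / (1 + b)) := by field_simp; ring
  rw [e2, Real.rpow_neg hδ.le, div_inv_eq_mul]
  ring

end Pool.Agent.Spiral83
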