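import Pool.Agent.Spiral83.Defs
import Pool.Agent.Spiral83.Lower

/-!
The trajectories of the system are the model curves.
-/

open MeasureTheory Filter Topology Set

namespace Pool.Agent.Spiral83

/-- the parameter -/
noncomputable def par (m n k : ℕ) (x y : ℝ) : ℝ := (((x ^ m) ^ 2 + (y ^ n) ^ 2) ^ k)⁻¹

theorem param {m n k : ℕ} (hm : Odd m) (hn : Odd n) (hk : 1 ≤ k) {σ : ℝ} (hσ : σ ^ 2 = 1)
    {x y : ℝ → ℝ} {I : Set ℝ} (hI : I.OrdConnected) (hsol : IsSolutionOn m n k σ x y I)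
    (hne : ∀ t ∈ I, (x t, y t) ≠ (0, 0)) :
    ∃ α : ℝ, ∀ t ∈ I,
      x t ^ m = par m n k (x t) (y t) ^ (-(1 / (2 * (k : ℝ)))) *
        Real.cos (-σ * (par m n k (x t) (y t) / (2 * k)) + α) ∧
      y t ^ n = par m n k (x t) (y t) ^ (-(1 / (2 * (k : ℝ)))) *
        Real.sin (-σ * (par m n k (x t) (y t) / (2 * k)) + α) := by
  have hk0 : (0 : ℝ) < k := by exact_mod_cast hk
  have hmpos := hm.pos
  have hnpos := hn.pos
  set X : ℝ → ℝ := fun t => x t ^ m with hX
  set Y : ℝ → ℝ := fun t => y t ^ n with hY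
  set H : ℝ → ℝ := fun t => X t ^ 2 + Y t ^ 2 with hH
  set g : ℝ → ℝ := fun t => m * n * x t ^ (m - 1) * y t ^ (n - 1) with hg
  have hHpos : ∀ t ∈ I, 0 < H t := by
    intro t ht
    have h1 := hne t ht
    simp only [hH, hX, hY]
    by_contra hcon
    rw [not_lt] at hcon
    have h2 : (x t ^ m) ^ 2 = 0 := by nlinarith [sq_nonneg (x t ^ m), sq_nonneg (y t ^ n)]
    have h3 : (y t ^ n) ^ 2 = 0 := by nlinarith [sq_nonneg (x t ^ m), sq_nonneg (y t ^ n)]
    apply h1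
    rw [Prod.mk.injEq]
    exact ⟨eq_zero_of_pow_eq_zero (eq_zero_of_pow_eq_zero h2),
      eq_zero_of_pow_eq_zero (eq_zero_of_pow_eq_zero h3)⟩
  have hXd : ∀ t ∈ I, HasDerivWithinAt X (g t * (-Y t + σ * X t * H t ^ k)) I t := by
    intro t ht
    refine ((hsol t ht).1.pow m).congr_deriv ?_
    simp only [hg, hY, hX, hH, fieldX]
    have e1 : y t ^ (2 * n - 1) = y t ^ (n - 1) * y t ^ n := by
      rw [← pow_add]; congr 1; omega
    have e2 : x t ^ (2 * m) = (x t ^ m) ^ 2 := by rw [← pow_mul, mul_comm]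
    have e3 : y t ^ (2 * n) = (y t ^ n) ^ 2 := by rw [← pow_mul, mul_comm]
    rw [e1, e2, e3]
    ring
  have hYd : ∀ t ∈ I, HasDerivWithinAt Y (g t * (X t + σ * Y t * H t ^ k)) I t := by
    intro t ht
    refine ((hsol t ht).2.pow n).congr_deriv ?_
    simp only [hg, hY, hX, hH, fieldY]
    have e1 : x t ^ (2 * m - 1) = x t ^ (m - 1) * x t ^ m := by
      rw [← pow_add]; congr 1; omega
    have e2 : x t ^ (2 * m) = (x t ^ m) ^ 2 := by rw [← pow_mul, mul_comm]
    have e3 : y t ^ (2 * n) = (y t ^ n) ^ 2 := by rw [← pow_mul, mul_comm]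
    rw [e1, e2, e3]
    ring
  have hHd : ∀ t ∈ I, HasDerivWithinAt H (2 * σ * g t * H t ^ (k + 1)) I t := by
    intro t ht
    refine (((hXd t ht).pow 2).add ((hYd t ht).pow 2)).congr_deriv ?_
    have e1 : H t ^ (k + 1) = H t ^ k * (X t ^ 2 + Y t ^ 2) := by rw [pow_succ]
    rw [e1]
    push_cast
    ring
  set S : ℝ → ℝ := fun t => (H t ^ k)⁻¹ with hS
  have hSd : ∀ t ∈ I, HasDerivWithinAt S (-(2 * k * σ * g t)) I t := by
    intro t ht
    have hp := hHpos t ht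
    refine (((hHd t ht).pow k).inv (pow_pos hp k).ne').congr_deriv ?_
    have e1 : H t ^ k = H t ^ (k - 1) * H t := by
      rw [← pow_succ]; congr 1; omega
    have e2 : H t ^ (k + 1) = H t ^ k * H t := pow_succ _ _
    simp only [Pi.pow_apply]
    rw [e2]
    have h0 : H t ^ k ≠ 0 := (pow_pos hp k).ne'
    have h1 : (k : ℝ) * H t ^ (k - 1) * (2 * σ * g t * (H t ^ k * H t)) =
        2 * k * σ * g t * (H t ^ k) ^ 2 := by
      have : (k : ℝ) * H t ^ (k - 1) * (2 * σ * g t * (H t ^ k * H t)) =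
        2 * k * σ * g t * (H t ^ k * (H t ^ (k - 1) * H t)) := by ring
      rw [this, ← e1]
      ring
    rw [h1]
    field_simp
  set Θ : ℝ → ℝ := fun t => -σ * (S t / (2 * k)) with hΘ
  have hΘd : ∀ t ∈ I, HasDerivWithinAt Θ (g t) I t := by
    intro t ht
    refine (((hSd t ht).div_const (2 * (k : ℝ))).const_mul (-σ)).congr_deriv ?_
    have : -σ * (-(2 * k * σ * g t) / (2 * k)) = σ ^ 2 * g t := by
      field_simp
    rw [this, hσ, one_mul]
  set u : ℝ → ℝ := fun t => (Real.sqrt (H t))⁻¹ with hu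
  have hud : ∀ t ∈ I, HasDerivWithinAt u (-(σ * g t * H t ^ k * u t)) I t := by
    intro t ht
    have hp := hHpos t ht
    have hs : 0 < Real.sqrt (H t) := Real.sqrt_pos.2 hp
    refine (((hHd t ht).sqrt hp.ne').inv hs.ne').congr_deriv ?_
    have e2 : H t ^ (k + 1) = H t ^ k * (Real.sqrt (H t)) ^ 2 := by
      rw [pow_succ, Real.sq_sqrt hp.le]
    simp only [hu]
    rw [e2]
    field_simp
  have hAd : ∀ t ∈ I, HasDerivWithinAt
      (fun t => u t * (X t * Real.cos (Θ t) + Y t * Real.sin (Θ t))) 0 I t := by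
    intro t ht
    refine ((hud t ht).mul (((hXd t ht).mul (hΘd t ht).cos).add
      ((hYd t ht).mul (hΘd t ht).sin))).congr_deriv ?_
    simp only [Pi.add_apply, Pi.mul_apply]
    ring
  have hBd : ∀ t ∈ I, HasDerivWithinAt
      (fun t => u t * (Y t * Real.cos (Θ t) - X t * Real.sin (Θ t))) 0 I t := by
    intro t ht
    refine ((hud t ht).mul (((hYd t ht).mul (hΘd t ht).cos).sub
      ((hXd t ht).mul (hΘd t ht).sin))).congr_deriv ?_
    simp only [Pi.sub_apply, Pi.mul_apply]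
    ring
  rcases I.eq_empty_or_nonempty with hemp | ⟨t0, ht0⟩
  · refine ⟨0, fun t ht => ?_⟩
    rw [hemp] at ht
    exact absurd ht (notMem_empty t)
  have hconv : Convex ℝ I := hI.convex
  set A0 := u t0 * (X t0 * Real.cos (Θ t0) + Y t0 * Real.sin (Θ t0)) with hA0
  set B0 := u t0 * (Y t0 * Real.cos (Θ t0) - X t0 * Real.sin (Θ t0)) with hB0
  have hA : ∀ t ∈ I, u t * (X t * Real.cos (Θ t) + Y t * Real.sin (Θ t)) = A0 := by
    intro t ht
    have := Convex.norm_image_sub_le_of_norm_hasDerivWithin_le (C := 0) hAd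
      (fun t _ => by simp) hconv ht0 ht
    rw [zero_mul] at this
    exact sub_eq_zero.1 (norm_le_zero_iff.1 this)
  have hB : ∀ t ∈ I, u t * (Y t * Real.cos (Θ t) - X t * Real.sin (Θ t)) = B0 := by
    intro t ht
    have := Convex.norm_image_sub_le_of_norm_hasDerivWithin_le (C := 0) hBd
      (fun t _ => by simp) hconv ht0 ht
    rw [zero_mul] at this
    exact sub_eq_zero.1 (norm_le_zero_iff.1 this)
  have hAB : A0 ^ 2 + B0 ^ 2 = 1 := by
    have hp := hHpos t0 ht0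
    have hs : 0 < Real.sqrt (H t0) := Real.sqrt_pos.2 hp
    have e1 : A0 ^ 2 + B0 ^ 2 = u t0 ^ 2 * ((X t0 ^ 2 + Y t0 ^ 2) *
        (Real.cos (Θ t0) ^ 2 + Real.sin (Θ t0) ^ 2)) := by
      rw [hA0, hB0]; ring
    rw [e1, Real.cos_sq_add_sin_sq, mul_one]
    have e2 : X t0 ^ 2 + Y t0 ^ 2 = Real.sqrt (H t0) ^ 2 := by rw [Real.sq_sqrt hp.le]
    rw [e2]
    simp only [hu]
    field_simp
  obtain ⟨α, hcα, hsα⟩ : ∃ α : ℝ, Real.cos α = A0 ∧ Real.sin α = B0 := by
    have hn1 : ‖(⟨A0, B0⟩ : ℂ)‖ = 1 := by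
      rw [Complex.norm_def, Complex.normSq_mk, ← sq, ← sq, hAB, Real.sqrt_one]
    refine ⟨Complex.arg ⟨A0, B0⟩, ?_, ?_⟩
    · have := Complex.norm_mul_cos_arg (⟨A0, B0⟩ : ℂ)
      rw [hn1, one_mul] at this
      exact this
    · have := Complex.norm_mul_sin_arg (⟨A0, B0⟩ : ℂ)
      rw [hn1, one_mul] at this
      exact this
  refine ⟨α, fun t ht => ?_⟩
  have hp := hHpos t ht
  have hs : 0 < Real.sqrt (H t) := Real.sqrt_pos.2 hp
  have hpar : par m n k (x t) (y t) = S t := rfl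
  have hSpow : S t ^ (-(1 / (2 * (k : ℝ)))) = Real.sqrt (H t) := by
    simp only [hS]
    rw [← Real.rpow_natCast, ← Real.rpow_neg hp.le, ← Real.rpow_mul hp.le, Real.sqrt_eq_rpow]
    congr 1
    field_simp
  have hΘt : -σ * (S t / (2 * k)) = Θ t := rfl
  rw [hpar, hSpow, hΘt, Real.cos_add, Real.sin_add, hcα, hsα, ← hA t ht, ← hB t ht]
  have hcs := Real.cos_sq_add_sin_sq (Θ t)
  have hus : Real.sqrt (H t) * u t = 1 := by
    simp only [hu]
    field_simp
  constructor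
  · have e : Real.sqrt (H t) *
        (Real.cos (Θ t) * (u t * (X t * Real.cos (Θ t) + Y t * Real.sin (Θ t))) -
          Real.sin (Θ t) * (u t * (Y t * Real.cos (Θ t) - X t * Real.sin (Θ t)))) =
        (Real.sqrt (H t) * u t) * (X t * (Real.cos (Θ t) ^ 2 + Real.sin (Θ t) ^ 2)) := by ring
    rw [e, hus, hcs]
    ring
  · have e : Real.sqrt (H t) *
        (Real.sin (Θ t) * (u t * (X t * Real.cos (Θ t) + Y t * Real.sin (Θ t))) +
          Real.cos (Θ t) * (u t * (Y t * Real.cos (Θ t) - X t * Real.sin (Θ t)))) =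
        (Real.sqrt (H t) * u t) * (Y t * (Real.cos (Θ t) ^ 2 + Real.sin (Θ t) ^ 2)) := by ring
    rw [e, hus, hcs]
    ring

end Pool.Agent.Spiral83
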