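import Mathlib

/-!
Definitions for the box dimension of the spiral trajectories of the planar system
`x' = -n y^(2n-1) + σ n x^m y^(n-1) ρ^k`, `y' = m x^(2m-1) + σ m x^(m-1) y^n ρ^k`,
`ρ = x^(2m) + y^(2n)`.  The plane is `ℂ`, the point `(x, y)` being `x + i y`.
-/

open MeasureTheory Filter Topology Set

namespace Pool.Agent.Spiral83

/-- First component of the vector field at the point `(x, y)`. -/
noncomputable def fieldX (m n k : ℕ) (σ x y : ℝ) : ℝ :=
  -(n : ℝ) * y ^ (2 * n - 1) + σ * n * x ^ m * y ^ (n - 1) * (x ^ (2 * m) + y ^ (2 * n)) ^ k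

/-- Second component of the vector field at the point `(x, y)`. -/
noncomputable def fieldY (m n k : ℕ) (σ x y : ℝ) : ℝ :=
  (m : ℝ) * x ^ (2 * m - 1) + σ * m * x ^ (m - 1) * y ^ n * (x ^ (2 * m) + y ^ (2 * n)) ^ k

/-- `t ↦ (x t, y t)` solves the system on the set of times `I`. -/
def IsSolutionOn (m n k : ℕ) (σ : ℝ) (x y : ℝ → ℝ) (I : Set ℝ) : Prop :=
  ∀ t ∈ I, HasDerivWithinAt x (fieldX m n k σ (x t) (y t)) I t ∧
    HasDerivWithinAt y (fieldY m n k σ (x t) (y t)) I t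

/-- `S` is a spiral trajectory near the origin: there is a trajectory `t ↦ (x t, y t)`, defined on
an interval of times `I` and never at the equilibrium, which tends to the origin as `t → +∞` if
`σ = -1` (then `I` contains a half-line `[t₀, ∞)`) and as `t → -∞` if `σ = 1` (then `I` contains
a half-line `(-∞, t₀]`), and `S` is the part of the trajectory inside a bounded neighbourhood `U`
of the origin. -/
def IsSpiral (m n k : ℕ) (σ : ℝ) (S : Set ℂ) : Prop :=
  ∃ (x y : ℝ → ℝ) (I : Set ℝ) (U : Set ℂ),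
    I.OrdConnected ∧ IsSolutionOn m n k σ x y I ∧ (∀ t ∈ I, (x t, y t) ≠ (0, 0)) ∧
    ((σ = -1 ∧ (∃ t₀, Ici t₀ ⊆ I) ∧ Tendsto x atTop (𝓝 0) ∧ Tendsto y atTop (𝓝 0)) ∨
      (σ = 1 ∧ (∃ t₀, Iic t₀ ⊆ I) ∧ Tendsto x atBot (𝓝 0) ∧ Tendsto y atBot (𝓝 0))) ∧
    U ∈ 𝓝 (0 : ℂ) ∧ Bornology.IsBounded U ∧
    S = ((fun t => (⟨x t, y t⟩ : ℂ)) '' I) ∩ U

/-- The quotient `log |S_ε| / log ε`, where `S_ε` is the set of points at distance at most `ε`
from `S` and `|S_ε|` its area. -/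
noncomputable def areaQuotient (S : Set ℂ) (ε : ℝ) : EReal :=
  ((Real.log (volume.real (Metric.cthickening ε S)) / Real.log ε : ℝ) : EReal)

/-- Upper Minkowski (box) dimension, `2 - liminf log |S_ε| / log ε` as `ε → 0+`. -/
noncomputable def upperBoxDim (S : Set ℂ) : EReal :=
  2 - liminf (areaQuotient S) (𝓝[>] (0 : ℝ))

/-- Lower Minkowski (box) dimension, `2 - limsup log |S_ε| / log ε` as `ε → 0+`. -/
noncomputable def lowerBoxDim (S : Set ℂ) : EReal :=
  2 - limsup (areaQuotient S) (𝓝[>] (0 : ℝ))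

end Pool.Agent.Spiral83
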