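import Mathlib

/-!
Auxiliary facts for the box dimension of degenerate spirals: odd roots, monotone pieces,
a covering lemma for rectifiable arcs.
-/

open MeasureTheory Filter Topology Set

namespace Pool.Agent.Spiral83

/-- odd root -/
noncomputable def ort (n : ℕ) (x : ℝ) : ℝ :=
  if 0 ≤ x then x ^ ((1 : ℝ) / n) else -((-x) ^ ((1 : ℝ) / n))

lemma ort_pow {n : ℕ} (hn : Odd n) (x : ℝ) : ort n x ^ n = x := by
  have hn0 : (n : ℝ) ≠ 0 := by
    have := hn.pos
    positivity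
  unfold ort
  split_ifs with h
  · rw [← Real.rpow_natCast, ← Real.rpow_mul h, one_div, inv_mul_cancel₀ hn0, Real.rpow_one]
  · have h' : 0 ≤ -x := by linarith
    rw [hn.neg_pow, ← Real.rpow_natCast, ← Real.rpow_mul h', one_div, inv_mul_cancel₀ hn0,
      Real.rpow_one, neg_neg]

lemma ort_unique {n : ℕ} (hn : Odd n) {x y : ℝ} (h : y ^ n = x) : y = ort n x := by
  apply hn.pow_injective
  simp only
  rw [ort_pow hn, h]

lemma ort_mono {n : ℕ} (hn : Odd n) : Monotone (ort n) := by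
  intro x y h
  apply (hn.pow_le_pow).1
  rw [ort_pow hn, ort_pow hn]
  exact h

lemma ort_mul {n : ℕ} (hn : Odd n) {c : ℝ} (hc : 0 ≤ c) (x : ℝ) :
    ort n (c * x) = c ^ ((1 : ℝ) / n) * ort n x := by
  have hn0 : (n : ℝ) ≠ 0 := by
    have := hn.pos
    positivity
  symm
  apply ort_unique hn
  rw [mul_pow, ort_pow hn, ← Real.rpow_natCast, ← Real.rpow_mul hc, one_div,
    inv_mul_cancel₀ hn0, Real.rpow_one]

lemma ort_one {n : ℕ} (hn : Odd n) : ort n 1 = 1 := (ort_unique hn (by simp)).symm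

lemma ort_neg_one {n : ℕ} (hn : Odd n) : ort n (-1) = -1 :=
  (ort_unique hn (by rw [hn.neg_pow, one_pow])).symm

lemma abs_ort_le_one {n : ℕ} (hn : Odd n) {x : ℝ} (hx : |x| ≤ 1) : |ort n x| ≤ 1 := by
  rw [abs_le] at hx ⊢
  constructor
  · rw [← ort_neg_one hn]; exact ort_mono hn hx.1
  · rw [← ort_one hn]; exact ort_mono hn hx.2

/-- one coordinate on a quarter turn -/
lemma comp_bound {f : ℝ → ℝ} {p q r : ℝ} (hp : 0 < p) (hpq : p ≤ q) (hr : 0 ≤ r)
    (hf : MonotoneOn f (Icc p q) ∨ AntitoneOn f (Icc p q)) (hb : ∀ s ∈ Icc p q, |f s| ≤ 1) :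
    ∃ lam : ℝ → ℝ, (∀ s ∈ Icc p q, ∀ s' ∈ Icc p q, s ≤ s' →
      |s' ^ (-r) * f s' - s ^ (-r) * f s| ≤ lam s' - lam s) ∧
      lam q - lam p ≤ 3 * p ^ (-r) := by
  have hanti : ∀ s ∈ Icc p q, ∀ s' ∈ Icc p q, s ≤ s' → s' ^ (-r) ≤ s ^ (-r) := by
    intro s hs s' hs' hss
    exact Real.rpow_le_rpow_of_nonpos (lt_of_lt_of_le hp hs.1) hss (by linarith)
  have hq : q ∈ Icc p q := ⟨hpq, le_refl _⟩
  have hpm : p ∈ Icc p q := ⟨le_refl _, hpq⟩
  have hpp : ∀ s ∈ Icc p q, s ^ (-r) ≤ p ^ (-r) := fun s hs => hanti p hpm s hs hs.1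
  have hpos : ∀ s ∈ Icc p q, 0 ≤ s ^ (-r) := fun s hs =>
    Real.rpow_nonneg (le_trans hp.le hs.1) _
  rcases hf with hf | hf
  · refine ⟨fun s => p ^ (-r) * f s - s ^ (-r), ?_, ?_⟩
    · intro s hs s' hs' hss
      have e : s' ^ (-r) * f s' - s ^ (-r) * f s
          = s' ^ (-r) * (f s' - f s) + -((s ^ (-r) - s' ^ (-r)) * f s) := by ring
      rw [e]
      have h1 : 0 ≤ f s' - f s := sub_nonneg.2 (hf hs hs' hss)
      have h2 : 0 ≤ s ^ (-r) - s' ^ (-r) := sub_nonneg.2 (hanti s hs s' hs' hss)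
      calc |s' ^ (-r) * (f s' - f s) + -((s ^ (-r) - s' ^ (-r)) * f s)|
          ≤ |s' ^ (-r) * (f s' - f s)| + |-((s ^ (-r) - s' ^ (-r)) * f s)| := abs_add_le _ _
        _ = s' ^ (-r) * (f s' - f s) + (s ^ (-r) - s' ^ (-r)) * |f s| := by
            rw [abs_neg, abs_mul, abs_mul, abs_of_nonneg (hpos s' hs'), abs_of_nonneg h1,
              abs_of_nonneg h2]
        _ ≤ p ^ (-r) * (f s' - f s) + (s ^ (-r) - s' ^ (-r)) * 1 := by
            exact add_le_add (mul_le_mul_of_nonneg_right (hpp s' hs') h1)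
              (mul_le_mul_of_nonneg_left (hb s hs) h2)
        _ = _ := by ring
    · have h1 := (abs_le.1 (hb q hq)).2
      have h2 := (abs_le.1 (hb p hpm)).1
      have h3 := hpos q hq
      have h4 := hpos p hpm
      nlinarith
  · refine ⟨fun s => -(p ^ (-r) * f s) - s ^ (-r), ?_, ?_⟩
    · intro s hs s' hs' hss
      have e : s' ^ (-r) * f s' - s ^ (-r) * f s
          = -(s' ^ (-r) * (f s - f s')) + -((s ^ (-r) - s' ^ (-r)) * f s) := by ring
      rw [e]
      have h1 : 0 ≤ f s - f s' := sub_nonneg.2 (hf hs hs' hss)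
      have h2 : 0 ≤ s ^ (-r) - s' ^ (-r) := sub_nonneg.2 (hanti s hs s' hs' hss)
      calc |-(s' ^ (-r) * (f s - f s')) + -((s ^ (-r) - s' ^ (-r)) * f s)|
          ≤ |-(s' ^ (-r) * (f s - f s'))| + |-((s ^ (-r) - s' ^ (-r)) * f s)| := abs_add_le _ _
        _ = s' ^ (-r) * (f s - f s') + (s ^ (-r) - s' ^ (-r)) * |f s| := by
            rw [abs_neg, abs_neg, abs_mul, abs_mul, abs_of_nonneg (hpos s' hs'),
              abs_of_nonneg h1, abs_of_nonneg h2]
        _ ≤ p ^ (-r) * (f s - f s') + (s ^ (-r) - s' ^ (-r)) * 1 := by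
            exact add_le_add (mul_le_mul_of_nonneg_right (hpp s' hs') h1)
              (mul_le_mul_of_nonneg_left (hb s hs) h2)
        _ = _ := by ring
    · have h1 := (abs_le.1 (hb q hq)).1
      have h2 := (abs_le.1 (hb p hpm)).2
      have h3 := hpos q hq
      have h4 := hpos p hpm
      nlinarith

/-- the cosine is monotone or antitone on a quarter turn -/
lemma cos_quarter (j : ℤ) :
    MonotoneOn Real.cos (Icc (j * (Real.pi / 2)) ((j + 1) * (Real.pi / 2))) ∨
      AntitoneOn Real.cos (Icc (j * (Real.pi / 2)) ((j + 1) * (Real.pi / 2))) := by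
  obtain ⟨i, hi⟩ : ∃ i : ℤ, j = 2 * i ∨ j = 2 * i + 1 := by
    exact ⟨j / 2, by omega⟩
  have hsub : ∀ θ ∈ Icc ((j : ℝ) * (Real.pi / 2)) ((j + 1) * (Real.pi / 2)),
      θ - i * Real.pi ∈ Icc 0 Real.pi := by
    intro θ hθ
    have hpi := Real.pi_pos
    rcases hi with hi | hi <;> rw [hi] at hθ <;> push_cast at hθ <;> constructor <;>
      nlinarith [hθ.1, hθ.2]
  have hcos : ∀ θ : ℝ, Real.cos θ = (-1 : ℝ) ^ i * Real.cos (θ - i * Real.pi) := by
    intro θ
    rw [Real.cos_sub_int_mul_pi]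
    rw [← mul_assoc, ← zpow_add₀ (by norm_num), ← two_mul, zpow_mul]
    simp
  rcases Int.even_or_odd i with he | ho
  · right
    intro θ hθ θ' hθ' hle
    rw [hcos θ, hcos θ', he.neg_one_zpow, one_mul, one_mul]
    exact Real.strictAntiOn_cos.antitoneOn (hsub θ hθ) (hsub θ' hθ') (by linarith)
  · left
    intro θ hθ θ' hθ' hle
    rw [hcos θ, hcos θ', ho.neg_one_zpow]
    have := Real.strictAntiOn_cos.antitoneOn (hsub θ hθ) (hsub θ' hθ') (by linarith)
    linarith

lemma sin_quarter (j : ℤ) :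
    MonotoneOn Real.sin (Icc (j * (Real.pi / 2)) ((j + 1) * (Real.pi / 2))) ∨
      AntitoneOn Real.sin (Icc (j * (Real.pi / 2)) ((j + 1) * (Real.pi / 2))) := by
  have hs : ∀ θ, Real.sin θ = Real.cos (θ - Real.pi / 2) := fun θ =>
    (Real.cos_sub_pi_div_two θ).symm
  have hsub : ∀ θ ∈ Icc ((j : ℝ) * (Real.pi / 2)) ((j + 1) * (Real.pi / 2)),
      θ - Real.pi / 2 ∈ Icc (((j - 1 : ℤ) : ℝ) * (Real.pi / 2))
        ((((j - 1 : ℤ) : ℝ) + 1) * (Real.pi / 2)) := by
    intro θ hθ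
    push_cast
    constructor <;> linarith [hθ.1, hθ.2]
  rcases cos_quarter (j - 1) with h | h
  · left
    intro θ hθ θ' hθ' hle
    rw [hs, hs]
    exact h (hsub θ hθ) (hsub θ' hθ') (by linarith)
  · right
    intro θ hθ θ' hθ' hle
    rw [hs, hs]
    exact h (hsub θ hθ) (hsub θ' hθ') (by linarith)

/-- covering lemma -/
lemma cover {γ : ℝ → ℂ} {lam : ℝ → ℝ} {p q : ℝ} (hpq : p ≤ q)
    (hlam : ∀ s ∈ Icc p q, ∀ s' ∈ Icc p q, s ≤ s' → ‖γ s' - γ s‖ ≤ lam s' - lam s)
    {δ : ℝ} (hδ : 0 < δ) :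
    volume (Metric.thickening δ (γ '' Icc p q)) ≤
      ENNReal.ofReal (((lam q - lam p) / δ + 1) * (16 * δ ^ 2)) := by
  classical
  have hpm : p ∈ Icc p q := ⟨le_refl _, hpq⟩
  have hqm : q ∈ Icc p q := ⟨hpq, le_refl _⟩
  have hmono : ∀ s ∈ Icc p q, ∀ s' ∈ Icc p q, s ≤ s' → lam s ≤ lam s' := by
    intro s hs s' hs' h
    have := hlam s hs s' hs' h
    linarith [norm_nonneg (γ s' - γ s)]
  set N := ⌊(lam q - lam p) / δ⌋₊ with hN
  let idx : ℝ → ℕ := fun s => ⌊(lam s - lam p) / δ⌋₊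
  let A : ℕ → Set ℝ := fun i => {s | s ∈ Icc p q ∧ idx s = i}
  let c : ℕ → ℂ := fun i => if h : (A i).Nonempty then γ h.some else 0
  have hsub : Metric.thickening δ (γ '' Icc p q) ⊆
      ⋃ i ∈ Finset.range (N + 1), Metric.closedBall (c i) (2 * δ) := by
    intro z hz
    rw [Metric.mem_thickening_iff] at hz
    obtain ⟨w, ⟨s, hs, rfl⟩, hzw⟩ := hz
    have hne : (A (idx s)).Nonempty := ⟨s, hs, rfl⟩
    rw [mem_iUnion₂]
    refine ⟨idx s, ?_, ?_⟩
    · rw [Finset.mem_range]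
      apply Nat.lt_succ_of_le
      apply Nat.floor_le_floor
      have := hmono s hs q hqm hs.2
      gcongr
    · rw [Metric.mem_closedBall]
      have hc : c (idx s) = γ hne.some := by
        simp only [c]; rw [dif_pos hne]
      rw [hc]
      have hsome := hne.some_mem
      set s₁ := hne.some with hs₁
      obtain ⟨hs1, hidx⟩ := hsome
      have key : dist (γ s) (γ s₁) ≤ δ := by
        have hs0 : 0 ≤ (lam s - lam p) / δ := div_nonneg (by linarith [hmono p hpm s hs hs.1]) hδ.le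
        have hs10 : 0 ≤ (lam s₁ - lam p) / δ :=
          div_nonneg (by linarith [hmono p hpm s₁ hs1 hs1.1]) hδ.le
        have a1 := Nat.floor_le hs0
        have a2 := Nat.lt_floor_add_one ((lam s - lam p) / δ)
        have b1 := Nat.floor_le hs10
        have b2 := Nat.lt_floor_add_one ((lam s₁ - lam p) / δ)
        have hidx' : ⌊(lam s₁ - lam p) / δ⌋₊ = ⌊(lam s - lam p) / δ⌋₊ := hidx
        rw [hidx'] at b1 b2
        have c1 : (lam s - lam p) / δ - (lam s₁ - lam p) / δ ≤ 1 := by linarith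
        have c2 : (lam s₁ - lam p) / δ - (lam s - lam p) / δ ≤ 1 := by linarith
        rw [← sub_div, div_le_one hδ] at c1 c2
        rcases le_total s s₁ with h | h
        · have := hlam s hs s₁ hs1 h
          rw [dist_comm, dist_eq_norm]
          linarith
        · have := hlam s₁ hs1 s hs h
          rw [dist_eq_norm]
          linarith
      calc dist z (γ s₁) ≤ dist z (γ s) + dist (γ s) (γ s₁) := dist_triangle _ _ _
        _ ≤ 2 * δ := by linarith
  have hN0 : 0 ≤ (lam q - lam p) / δ := div_nonneg (by linarith [hmono p hpm q hqm hpq]) hδ.le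
  calc volume (Metric.thickening δ (γ '' Icc p q))
      ≤ volume (⋃ i ∈ Finset.range (N + 1), Metric.closedBall (c i) (2 * δ)) :=
        measure_mono hsub
    _ ≤ ∑ i ∈ Finset.range (N + 1), volume (Metric.closedBall (c i) (2 * δ)) :=
        measure_biUnion_finset_le _ _
    _ = ∑ i ∈ Finset.range (N + 1), ENNReal.ofReal (4 * Real.pi * δ ^ 2) := by
        apply Finset.sum_congr rfl
        intro i _
        rw [Complex.volume_closedBall, ← ENNReal.ofReal_coe_nnreal, NNReal.coe_real_pi,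
          ← ENNReal.ofReal_pow (by positivity), ← ENNReal.ofReal_mul (by positivity)]
        ring_nf
    _ = ENNReal.ofReal (((N : ℝ) + 1) * (4 * Real.pi * δ ^ 2)) := by
        rw [Finset.sum_const, Finset.card_range, nsmul_eq_mul,
          ENNReal.ofReal_mul (p := (N : ℝ) + 1) (by positivity)]
        congr 1
        rw [ENNReal.ofReal_add (by positivity) (by norm_num)]
        simp
    _ ≤ _ := by
        apply ENNReal.ofReal_le_ofReal
        have h1 : (N : ℝ) ≤ (lam q - lam p) / δ := Nat.floor_le hN0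
        have h2 : Real.pi ≤ 4 := Real.pi_le_four
        gcongr
        linarith

end Pool.Agent.Spiral83
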