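import Pool.Agent.Spiral83.Root

/-!
Upper bound for the area of the neighbourhoods of the model spiral.
-/

open MeasureTheory Filter Topology Set

namespace Pool.Agent.Spiral83

/-- the model curve -/
noncomputable def gam (a b : ℝ) (m n k : ℕ) (α s : ℝ) : ℂ :=
  ⟨s ^ (-a) * ort m (Real.cos (s / (2 * k) + α)), s ^ (-b) * ort n (Real.sin (s / (2 * k) + α))⟩

lemma piece {a b : ℝ} {m n k : ℕ} {α p q : ℝ} (hm : Odd m) (hn : Odd n) (hk : 1 ≤ k)
    (ha : 0 ≤ a) (hb : 0 ≤ b) (hp : 0 < p) (hpq : p ≤ q) (j : ℤ)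
    (hj : ∀ s ∈ Icc p q, s / (2 * k) + α ∈ Icc (j * (Real.pi / 2)) ((j + 1) * (Real.pi / 2)))
    {δ : ℝ} (hδ : 0 < δ) :
    volume (Metric.thickening δ (gam a b m n k α '' Icc p q)) ≤
      ENNReal.ofReal (48 * (p ^ (-a) + p ^ (-b)) * δ + 16 * δ ^ 2) := by
  have hk0 : (0 : ℝ) < k := by exact_mod_cast hk
  have hcos : MonotoneOn (fun s => ort m (Real.cos (s / (2 * k) + α))) (Icc p q) ∨
      AntitoneOn (fun s => ort m (Real.cos (s / (2 * k) + α))) (Icc p q) := by
    rcases cos_quarter j with h | h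
    · left
      intro s hs s' hs' hle
      exact ort_mono hm (h (hj s hs) (hj s' hs') (by gcongr))
    · right
      intro s hs s' hs' hle
      exact ort_mono hm (h (hj s hs) (hj s' hs') (by gcongr))
  have hsin : MonotoneOn (fun s => ort n (Real.sin (s / (2 * k) + α))) (Icc p q) ∨
      AntitoneOn (fun s => ort n (Real.sin (s / (2 * k) + α))) (Icc p q) := by
    rcases sin_quarter j with h | h
    · left
      intro s hs s' hs' hle
      exact ort_mono hn (h (hj s hs) (hj s' hs') (by gcongr))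
    · right
      intro s hs s' hs' hle
      exact ort_mono hn (h (hj s hs) (hj s' hs') (by gcongr))
  obtain ⟨l1, h1, h1'⟩ := comp_bound (r := a) hp hpq ha hcos
    (fun s _ => abs_ort_le_one hm (Real.abs_cos_le_one _))
  obtain ⟨l2, h2, h2'⟩ := comp_bound (r := b) hp hpq hb hsin
    (fun s _ => abs_ort_le_one hn (Real.abs_sin_le_one _))
  have hc := cover (γ := gam a b m n k α) (lam := fun s => l1 s + l2 s) hpq (by
    intro s hs s' hs' hss
    have e1 := h1 s hs s' hs' hss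
    have e2 := h2 s hs s' hs' hss
    refine le_trans (Complex.norm_le_abs_re_add_abs_im _) ?_
    simp only [gam, Complex.sub_re, Complex.sub_im]
    linarith) hδ
  refine hc.trans ?_
  apply ENNReal.ofReal_le_ofReal
  have e3 : (l1 q + l2 q - (l1 p + l2 p)) / δ * (16 * δ ^ 2) =
      16 * (l1 q + l2 q - (l1 p + l2 p)) * δ := by
    field_simp
  rw [add_mul, e3, one_mul]
  have : 16 * (l1 q + l2 q - (l1 p + l2 p)) * δ ≤ 48 * (p ^ (-a) + p ^ (-b)) * δ := by
    apply mul_le_mul_of_nonneg_right _ hδ.le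
    linarith
  linarith

lemma sum_rpow_le {a : ℝ} (ha : 0 ≤ a) (ha1 : a < 1) (N : ℕ) :
    ∑ i ∈ Finset.range N, ((i : ℝ) + 1) ^ (-a) ≤ (N : ℝ) ^ (1 - a) / (1 - a) := by
  have h1a : 0 < 1 - a := by linarith
  induction N with
  | zero => simp; positivity
  | succ N ih =>
    rw [Finset.sum_range_succ]
    have hN : (0 : ℝ) < (N : ℝ) + 1 := by positivity
    have key : (N : ℝ) ^ (1 - a) ≤ ((N : ℝ) + 1) ^ (1 - a) - (1 - a) * ((N : ℝ) + 1) ^ (-a) := by
      have hb := rpow_one_add_le_one_add_mul_self (s := -1 / ((N : ℝ) + 1)) (by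
        rw [neg_div, neg_le_neg_iff, div_le_one hN]; linarith [Nat.cast_nonneg (α := ℝ) N])
        (p := 1 - a) h1a.le (by linarith)
      have e1 : 1 + -1 / ((N : ℝ) + 1) = (N : ℝ) / ((N : ℝ) + 1) := by field_simp; ring
      rw [e1, Real.div_rpow (Nat.cast_nonneg _) hN.le, div_le_iff₀ (by positivity)] at hb
      have e2 : ((N : ℝ) + 1) ^ (-a) = ((N : ℝ) + 1) ^ (1 - a) / ((N : ℝ) + 1) := by
        rw [show -a = (1 - a) - 1 by ring, Real.rpow_sub_one hN.ne']
      rw [e2]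
      calc (N : ℝ) ^ (1 - a) ≤ (1 + (1 - a) * (-1 / ((N : ℝ) + 1))) * ((N : ℝ) + 1) ^ (1 - a) := hb
        _ = _ := by ring
    push_cast
    rw [le_div_iff₀ h1a] at ih ⊢
    nlinarith

lemma volume_box (x1 x2 y1 y2 : ℝ) (hx : x1 ≤ x2) :
    volume {z : ℂ | z.re ∈ Icc x1 x2 ∧ z.im ∈ Icc y1 y2} =
      ENNReal.ofReal ((x2 - x1) * (y2 - y1)) := by
  have h := Complex.volume_preserving_equiv_real_prod
  have e : {z : ℂ | z.re ∈ Icc x1 x2 ∧ z.im ∈ Icc y1 y2} =
      Complex.measurableEquivRealProd ⁻¹' (Icc x1 x2 ×ˢ Icc y1 y2) := by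
    ext z
    simp only [mem_ofPred_eq, mem_preimage, mem_prod, Complex.measurableEquivRealProd_apply]
  rw [e, h.measure_preimage (measurableSet_Icc.prod measurableSet_Icc).nullMeasurableSet,
    Measure.volume_eq_prod, Measure.prod_prod, Real.volume_Icc, Real.volume_Icc,
    ← ENNReal.ofReal_mul (by linarith)]

lemma tail_box {a b : ℝ} {m n k : ℕ} {α L : ℝ} (hm : Odd m) (hn : Odd n)
    (ha : 0 ≤ a) (hb : 0 ≤ b) (hL : 0 < L) {δ : ℝ} (hδ : 0 < δ) :
    volume (Metric.thickening δ (gam a b m n k α '' Ici L)) ≤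
      ENNReal.ofReal (4 * (L ^ (-a) + δ) * (L ^ (-b) + δ)) := by
  have hsub : Metric.thickening δ (gam a b m n k α '' Ici L) ⊆
      {z : ℂ | z.re ∈ Icc (-(L ^ (-a) + δ)) (L ^ (-a) + δ) ∧
        z.im ∈ Icc (-(L ^ (-b) + δ)) (L ^ (-b) + δ)} := by
    intro z hz
    rw [Metric.mem_thickening_iff] at hz
    obtain ⟨w, ⟨s, hs, rfl⟩, hzw⟩ := hz
    have hs0 : 0 < s := lt_of_lt_of_le hL hs
    rw [dist_eq_norm] at hzw
    have h1 : |z.re - (gam a b m n k α s).re| ≤ δ := by
      have := Complex.abs_re_le_norm (z - gam a b m n k α s)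
      rw [Complex.sub_re] at this
      linarith
    have h2 : |z.im - (gam a b m n k α s).im| ≤ δ := by
      have := Complex.abs_im_le_norm (z - gam a b m n k α s)
      rw [Complex.sub_im] at this
      linarith
    have h3 : |(gam a b m n k α s).re| ≤ L ^ (-a) := by
      simp only [gam]
      rw [abs_mul, abs_of_nonneg (Real.rpow_nonneg hs0.le _)]
      have := abs_ort_le_one hm (Real.abs_cos_le_one (s / (2 * k) + α))
      have h4 : s ^ (-a) ≤ L ^ (-a) := Real.rpow_le_rpow_of_nonpos hL hs (by linarith)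
      have h5 : 0 ≤ s ^ (-a) := Real.rpow_nonneg hs0.le _
      calc s ^ (-a) * |ort m (Real.cos (s / (2 * k) + α))| ≤ s ^ (-a) * 1 :=
            mul_le_mul_of_nonneg_left this h5
        _ ≤ _ := by linarith
    have h3' : |(gam a b m n k α s).im| ≤ L ^ (-b) := by
      simp only [gam]
      rw [abs_mul, abs_of_nonneg (Real.rpow_nonneg hs0.le _)]
      have := abs_ort_le_one hn (Real.abs_sin_le_one (s / (2 * k) + α))
      have h4 : s ^ (-b) ≤ L ^ (-b) := Real.rpow_le_rpow_of_nonpos hL hs (by linarith)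
      have h5 : 0 ≤ s ^ (-b) := Real.rpow_nonneg hs0.le _
      calc s ^ (-b) * |ort n (Real.sin (s / (2 * k) + α))| ≤ s ^ (-b) * 1 :=
            mul_le_mul_of_nonneg_left this h5
        _ ≤ _ := by linarith
    rw [abs_le] at h1 h2 h3 h3'
    refine ⟨⟨?_, ?_⟩, ⟨?_, ?_⟩⟩ <;> linarith [h1.1, h1.2, h2.1, h2.2, h3.1, h3.2, h3'.1, h3'.2]
  refine (measure_mono hsub).trans ?_
  have h1 : 0 ≤ L ^ (-a) := Real.rpow_nonneg hL.le _
  have h2 : 0 ≤ L ^ (-b) := Real.rpow_nonneg hL.le _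
  rw [volume_box _ _ _ _ (by linarith)]
  apply ENNReal.ofReal_le_ofReal
  apply le_of_eq
  ring

/-- upper bound -/
theorem upper {a b : ℝ} {m n k : ℕ} (α : ℝ) (hm : Odd m) (hn : Odd n) (hk : 1 ≤ k)
    (ha : 0 < a) (hab : a ≤ b) (hb : b < 1) {s0 : ℝ} (hs0 : 0 < s0) :
    ∃ C : ℝ, 0 < C ∧ ∀ δ : ℝ, 0 < δ → δ ≤ 1 →
      volume (Metric.thickening δ (gam a b m n k α '' Ici s0)) ≤
        ENNReal.ofReal (C * δ ^ ((a + b) / (1 + b))) := by
  have hk0 : (0 : ℝ) < k := by exact_mod_cast hk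
  have hpi := Real.pi_pos
  set h : ℝ := k * Real.pi with hh
  have hpos : 0 < h := by positivity
  set β : ℝ := -(2 * k * α) with hβ
  set j0 : ℤ := ⌊(s0 - β) / h⌋ with hj0
  set P : ℕ → ℝ := fun i => h * (j0 + i) + β with hP
  have hP0 : P 0 ≤ s0 := by
    have := Int.floor_le ((s0 - β) / h)
    rw [le_div_iff₀ hpos] at this
    simp only [hP, Nat.cast_zero, add_zero]
    rw [hj0]
    linarith
  have hP1 : s0 < P 1 := by
    have := Int.lt_floor_add_one ((s0 - β) / h)
    rw [div_lt_iff₀ hpos] at this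
    simp only [hP, Nat.cast_one]
    rw [hj0]
    linarith
  have hPs : ∀ i : ℕ, P (i + 1) = P 1 + i * h := by
    intro i
    simp only [hP]
    push_cast
    ring
  have hPs' : ∀ i : ℕ, P (i + 1) = P i + h := by
    intro i
    simp only [hP]
    push_cast
    ring
  set l : ℕ → ℝ := fun i => max s0 (P i) with hl
  set c1 : ℝ := min s0 h / 2 with hc1
  have hc1pos : 0 < c1 := by
    have : 0 < min s0 h := lt_min hs0 hpos
    positivity
  have hc1s : 2 * c1 ≤ s0 := by
    rw [hc1]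
    linarith [min_le_left s0 h]
  have hc1h : 2 * c1 ≤ h := by
    rw [hc1]
    linarith [min_le_right s0 h]
  have hlge : ∀ i : ℕ, c1 * ((i : ℝ) + 1) ≤ l i := by
    intro i
    cases i with
    | zero =>
      simp only [hl, Nat.cast_zero, zero_add, mul_one]
      exact le_trans (by linarith) (le_max_left _ _)
    | succ i =>
      refine le_trans ?_ (le_max_right _ _)
      rw [hPs]
      push_cast
      have h1 : c1 * (i : ℝ) ≤ i * h := by
        rw [mul_comm]
        exact mul_le_mul_of_nonneg_left (by linarith) (Nat.cast_nonneg _)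
      nlinarith
  have hlpos : ∀ i, 0 < l i := fun i => lt_of_lt_of_le hs0 (le_max_left _ _)
  have hlu : ∀ i, l i ≤ P (i + 1) := by
    intro i
    apply max_le
    · rw [hPs]
      have : 0 ≤ (i : ℝ) * h := by positivity
      linarith
    · rw [hPs']
      linarith
  have hphase : ∀ i : ℕ, ∀ s ∈ Icc (l i) (P (i + 1)), s / (2 * k) + α ∈
      Icc (((j0 + i : ℤ) : ℝ) * (Real.pi / 2)) ((((j0 + i : ℤ) : ℝ) + 1) * (Real.pi / 2)) := by
    intro i s hs
    have h1 : P i ≤ s := le_trans (le_max_right _ _) hs.1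
    have h2 := hs.2
    simp only [hP, hh, hβ] at h1 h2
    push_cast at h1 h2 ⊢
    constructor
    · have : ((j0 : ℝ) + i) * (Real.pi / 2) - α ≤ s / (2 * k) := by
        rw [le_div_iff₀ (by positivity)]
        linarith
      linarith
    · have : s / (2 * k) ≤ ((j0 : ℝ) + i + 1) * (Real.pi / 2) - α := by
        rw [div_le_iff₀ (by positivity)]
        linarith
      linarith
  have hcov : ∀ N : ℕ, gam a b m n k α '' Ici s0 ⊆
      (⋃ i ∈ Finset.range N, gam a b m n k α '' Icc (l i) (P (i + 1))) ∪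
        gam a b m n k α '' Ici (l N) := by
    rintro N _ ⟨s, hs, rfl⟩
    have hs : s0 ≤ s := hs
    by_cases hN : P N ≤ s
    · right
      exact ⟨s, max_le hs hN, rfl⟩
    · left
      rw [not_le] at hN
      rw [mem_iUnion₂]
      have hq : 0 ≤ (s - P 0) / h := div_nonneg (by linarith) hpos.le
      have f1 := Nat.floor_le hq
      have f2 := Nat.lt_floor_add_one ((s - P 0) / h)
      rw [le_div_iff₀ hpos] at f1
      rw [div_lt_iff₀ hpos] at f2
      set i := ⌊(s - P 0) / h⌋₊ with hi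
      have hPi : P i = P 0 + i * h := by simp only [hP]; push_cast; ring
      have hPN : P N = P 0 + N * h := by simp only [hP]; push_cast; ring
      refine ⟨i, ?_, s, ⟨max_le hs ?_, ?_⟩, rfl⟩
      · rw [Finset.mem_range]
        by_contra hcon
        rw [not_lt] at hcon
        have : (N : ℝ) ≤ i := by exact_mod_cast hcon
        have : (N : ℝ) * h ≤ i * h := mul_le_mul_of_nonneg_right this hpos.le
        linarith
      · rw [hPi]; linarith
      · rw [hPs', hPi]; linarith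
  have h1a : 0 < 1 - a := by linarith
  have h1b : 0 < 1 + b := by linarith
  -- the constants
  set K1 : ℝ := (c1 ^ (-a) + c1 ^ (-b)) / (1 - a) with hK1
  have hca : 0 < c1 ^ (-a) := Real.rpow_pos_of_pos hc1pos _
  have hcb : 0 < c1 ^ (-b) := Real.rpow_pos_of_pos hc1pos _
  have hK1pos : 0 < K1 := by positivity
  have hmain : ∀ N : ℕ, 1 ≤ N → ∀ δ : ℝ, 0 < δ →
      volume (Metric.thickening δ (gam a b m n k α '' Ici s0)) ≤
        ENNReal.ofReal (48 * K1 * (N : ℝ) ^ (1 - a) * δ + 16 * N * δ ^ 2 +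
          4 * (c1 ^ (-a) * (N : ℝ) ^ (-a) + δ) * (c1 ^ (-b) * (N : ℝ) ^ (-b) + δ)) := by
    intro N hN δ hδ
    have hNpos : (0 : ℝ) < N := by exact_mod_cast hN
    have hli : ∀ (r : ℝ), 0 ≤ r → ∀ i : ℕ, (l i) ^ (-r) ≤ c1 ^ (-r) * ((i : ℝ) + 1) ^ (-r) := by
      intro r hr i
      rw [← Real.mul_rpow hc1pos.le (by positivity)]
      exact Real.rpow_le_rpow_of_nonpos (by positivity) (hlge i) (by linarith)
    have hstep1 : volume (Metric.thickening δ (gam a b m n k α '' Ici s0)) ≤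
        ∑ i ∈ Finset.range N, ENNReal.ofReal (48 * ((l i) ^ (-a) + (l i) ^ (-b)) * δ + 16 * δ ^ 2)
          + ENNReal.ofReal (4 * ((l N) ^ (-a) + δ) * ((l N) ^ (-b) + δ)) := by
      calc volume (Metric.thickening δ (gam a b m n k α '' Ici s0))
          ≤ volume (Metric.thickening δ ((⋃ i ∈ Finset.range N,
              gam a b m n k α '' Icc (l i) (P (i + 1))) ∪ gam a b m n k α '' Ici (l N))) :=
            measure_mono (Metric.thickening_subset_of_subset δ (hcov N))
        _ = volume ((⋃ i ∈ Finset.range N, Metric.thickening δ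
              (gam a b m n k α '' Icc (l i) (P (i + 1)))) ∪
                Metric.thickening δ (gam a b m n k α '' Ici (l N))) := by
            rw [Metric.thickening_union]
            simp only [Metric.thickening_iUnion]
        _ ≤ volume (⋃ i ∈ Finset.range N, Metric.thickening δ
              (gam a b m n k α '' Icc (l i) (P (i + 1)))) +
              volume (Metric.thickening δ (gam a b m n k α '' Ici (l N))) := measure_union_le _ _
        _ ≤ ∑ i ∈ Finset.range N, volume (Metric.thickening δ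
              (gam a b m n k α '' Icc (l i) (P (i + 1)))) +
              volume (Metric.thickening δ (gam a b m n k α '' Ici (l N))) := by
            gcongr
            exact measure_biUnion_finset_le _ _
        _ ≤ _ := by
            gcongr with i hi
            · exact piece hm hn hk ha.le (by linarith) (hlpos i) (hlu i) _ (hphase i) hδ
            · exact tail_box hm hn ha.le (by linarith) (hlpos N) hδ
    refine hstep1.trans ?_
    rw [← ENNReal.ofReal_sum_of_nonneg (fun i _ => by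
      have := Real.rpow_nonneg (hlpos i).le (-a)
      have := Real.rpow_nonneg (hlpos i).le (-b)
      positivity), ← ENNReal.ofReal_add (Finset.sum_nonneg (fun i _ => by
      have := Real.rpow_nonneg (hlpos i).le (-a)
      have := Real.rpow_nonneg (hlpos i).le (-b)
      positivity)) (by
      have := Real.rpow_nonneg (hlpos N).le (-a)
      have := Real.rpow_nonneg (hlpos N).le (-b)
      positivity)]
    apply ENNReal.ofReal_le_ofReal
    apply add_le_add
    · have hsum : ∑ i ∈ Finset.range N, (48 * ((l i) ^ (-a) + (l i) ^ (-b)) * δ + 16 * δ ^ 2)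
          ≤ ∑ i ∈ Finset.range N,
            (48 * δ * (c1 ^ (-a) + c1 ^ (-b)) * ((i : ℝ) + 1) ^ (-a) + 16 * δ ^ 2) := by
        apply Finset.sum_le_sum
        intro i _
        have e1 := hli a ha.le i
        have e2 := hli b (by linarith) i
        have e3 : ((i : ℝ) + 1) ^ (-b) ≤ ((i : ℝ) + 1) ^ (-a) :=
          Real.rpow_le_rpow_of_exponent_le (by linarith [Nat.cast_nonneg (α := ℝ) i])
            (by linarith)
        have e4 : c1 ^ (-b) * ((i : ℝ) + 1) ^ (-b) ≤ c1 ^ (-b) * ((i : ℝ) + 1) ^ (-a) :=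
          mul_le_mul_of_nonneg_left e3 hcb.le
        have e5 : (l i) ^ (-a) + (l i) ^ (-b) ≤ (c1 ^ (-a) + c1 ^ (-b)) * ((i : ℝ) + 1) ^ (-a) := by
          linarith
        have e6 : (48 * δ) * ((l i) ^ (-a) + (l i) ^ (-b)) ≤
            (48 * δ) * ((c1 ^ (-a) + c1 ^ (-b)) * ((i : ℝ) + 1) ^ (-a)) :=
          mul_le_mul_of_nonneg_left e5 (by positivity)
        linarith
      refine hsum.trans ?_
      rw [Finset.sum_add_distrib, ← Finset.mul_sum, Finset.sum_const, Finset.card_range,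
        nsmul_eq_mul]
      have hs := sum_rpow_le ha.le (by linarith : a < 1) N
      have h3 : 48 * δ * (c1 ^ (-a) + c1 ^ (-b)) * ∑ i ∈ Finset.range N, ((i : ℝ) + 1) ^ (-a) ≤
          48 * δ * (c1 ^ (-a) + c1 ^ (-b)) * ((N : ℝ) ^ (1 - a) / (1 - a)) :=
        mul_le_mul_of_nonneg_left hs (by positivity)
      have h4 : 48 * δ * (c1 ^ (-a) + c1 ^ (-b)) * ((N : ℝ) ^ (1 - a) / (1 - a)) =
          48 * K1 * (N : ℝ) ^ (1 - a) * δ := by
        rw [hK1]; field_simp
      linarith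
    · have hNN : c1 * N ≤ l N := le_trans (by nlinarith) (hlge N)
      have e1 : (l N) ^ (-a) ≤ c1 ^ (-a) * (N : ℝ) ^ (-a) := by
        rw [← Real.mul_rpow hc1pos.le (by positivity)]
        exact Real.rpow_le_rpow_of_nonpos (by positivity) hNN (by linarith)
      have e2 : (l N) ^ (-b) ≤ c1 ^ (-b) * (N : ℝ) ^ (-b) := by
        rw [← Real.mul_rpow hc1pos.le (by positivity)]
        exact Real.rpow_le_rpow_of_nonpos (by positivity) hNN (by linarith)
      have e3 := Real.rpow_nonneg (hlpos N).le (-a)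
      have e4 := Real.rpow_nonneg (hlpos N).le (-b)
      gcongr
  refine ⟨4 * (48 * K1 + 64) + 4 * (c1 ^ (-a) + 4) * (c1 ^ (-b) + 4), by positivity, ?_⟩
  intro δ hδ hδ1
  set x : ℝ := δ ^ (-(1 / (1 + b))) with hx
  have hx1 : 1 ≤ x := Real.one_le_rpow_of_pos_of_le_one_of_nonpos hδ hδ1 (by
    have : 0 < 1 / (1 + b) := by positivity
    linarith)
  have hxpos : 0 < x := by linarith
  have hδx : δ = x ^ (-(1 + b)) := by
    rw [hx, ← Real.rpow_mul hδ.le]
    have : -(1 / (1 + b)) * -(1 + b) = 1 := by field_simp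
    rw [this, Real.rpow_one]
  set N : ℕ := ⌈x⌉₊ with hN
  have hNx : x ≤ N := Nat.le_ceil x
  have hN2 : (N : ℝ) ≤ 2 * x := by
    have := (Nat.ceil_lt_add_one hxpos.le).le
    linarith
  have hN1 : 1 ≤ N := by
    have : (1 : ℝ) ≤ N := le_trans hx1 hNx
    exact_mod_cast this
  have hNpos : (0 : ℝ) < N := by linarith
  have hNge1 : (1 : ℝ) ≤ N := by linarith
  have hδN : δ ≤ 4 * (N : ℝ) ^ (-(1 + b)) := by
    -- x ≥ N / 2
    have h1 : x ^ (-(1 + b)) ≤ ((N : ℝ) / 2) ^ (-(1 + b)) :=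
      Real.rpow_le_rpow_of_nonpos (by positivity) (by linarith) (by linarith)
    have h2 : ((N : ℝ) / 2) ^ (-(1 + b)) = (N : ℝ) ^ (-(1 + b)) * 2 ^ (1 + b) := by
      rw [Real.div_rpow hNpos.le (by norm_num), Real.rpow_neg (by norm_num : (0 : ℝ) ≤ 2)]
      rw [div_inv_eq_mul]
    have h3 : (2 : ℝ) ^ (1 + b) ≤ 4 := by
      calc (2 : ℝ) ^ (1 + b) ≤ 2 ^ (2 : ℝ) :=
            Real.rpow_le_rpow_of_exponent_le (by norm_num) (by linarith)
        _ = 4 := by norm_num
    have h4 : 0 < (N : ℝ) ^ (-(1 + b)) := Real.rpow_pos_of_pos hNpos _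
    rw [← hδx, h2] at h1
    nlinarith
  refine (hmain N hN1 δ hδ).trans ?_
  apply ENNReal.ofReal_le_ofReal
  have hfin : (N : ℝ) ^ (-(a + b)) ≤ δ ^ ((a + b) / (1 + b)) := by
    have h1 : (N : ℝ) ^ (-(a + b)) ≤ x ^ (-(a + b)) :=
      Real.rpow_le_rpow_of_nonpos hxpos hNx (by linarith)
    have h2 : x ^ (-(a + b)) = δ ^ ((a + b) / (1 + b)) := by
      rw [hx, ← Real.rpow_mul hδ.le]
      congr 1
      field_simp
    linarith
  have hNa : 0 < (N : ℝ) ^ (-a) := Real.rpow_pos_of_pos hNpos _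
  have hNb : 0 < (N : ℝ) ^ (-b) := Real.rpow_pos_of_pos hNpos _
  have hNab : (N : ℝ) ^ (-(a + b)) = (N : ℝ) ^ (-a) * (N : ℝ) ^ (-b) := by
    rw [← Real.rpow_add hNpos]; congr 1; ring
  have t1 : (N : ℝ) ^ (1 - a) * δ ≤ 4 * (N : ℝ) ^ (-(a + b)) := by
    calc (N : ℝ) ^ (1 - a) * δ ≤ (N : ℝ) ^ (1 - a) * (4 * (N : ℝ) ^ (-(1 + b))) :=
          mul_le_mul_of_nonneg_left hδN (Real.rpow_nonneg hNpos.le _)
      _ = 4 * ((N : ℝ) ^ (1 - a) * (N : ℝ) ^ (-(1 + b))) := by ring
      _ = 4 * (N : ℝ) ^ (-(a + b)) := by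
          rw [← Real.rpow_add hNpos]; congr 2; ring
  have t2 : (N : ℝ) * δ ^ 2 ≤ 16 * (N : ℝ) ^ (-(a + b)) := by
    calc (N : ℝ) * δ ^ 2 ≤ (N : ℝ) * (4 * (N : ℝ) ^ (-(1 + b))) ^ 2 := by gcongr
      _ = 16 * ((N : ℝ) ^ (1 : ℝ) * ((N : ℝ) ^ (-(1 + b)) * (N : ℝ) ^ (-(1 + b)))) := by
          rw [Real.rpow_one]; ring
      _ = 16 * (N : ℝ) ^ (-(1 + 2 * b)) := by
          rw [← Real.rpow_add hNpos, ← Real.rpow_add hNpos]; congr 2; ring
      _ ≤ 16 * (N : ℝ) ^ (-(a + b)) :=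
          mul_le_mul_of_nonneg_left
            (Real.rpow_le_rpow_of_exponent_le hNge1 (by linarith)) (by norm_num)
  have t3 : δ ≤ 4 * (N : ℝ) ^ (-b) := by
    refine hδN.trans ?_
    gcongr
    linarith
  have t4 : δ ≤ 4 * (N : ℝ) ^ (-a) := by
    refine hδN.trans ?_
    gcongr
    linarith
  have t5 : (c1 ^ (-a) * (N : ℝ) ^ (-a) + δ) * (c1 ^ (-b) * (N : ℝ) ^ (-b) + δ) ≤
      ((c1 ^ (-a) + 4) * (N : ℝ) ^ (-a)) * ((c1 ^ (-b) + 4) * (N : ℝ) ^ (-b)) := by
    apply mul_le_mul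
    · linarith
    · linarith
    · positivity
    · positivity
  have t6 : ((c1 ^ (-a) + 4) * (N : ℝ) ^ (-a)) * ((c1 ^ (-b) + 4) * (N : ℝ) ^ (-b)) =
      (c1 ^ (-a) + 4) * (c1 ^ (-b) + 4) * (N : ℝ) ^ (-(a + b)) := by
    rw [hNab]; ring
  have t7 : 48 * K1 * ((N : ℝ) ^ (1 - a) * δ) ≤ 48 * K1 * (4 * (N : ℝ) ^ (-(a + b))) :=
    mul_le_mul_of_nonneg_left t1 (by positivity)
  calc 48 * K1 * (N : ℝ) ^ (1 - a) * δ + 16 * N * δ ^ 2 +
          4 * (c1 ^ (-a) * (N : ℝ) ^ (-a) + δ) * (c1 ^ (-b) * (N : ℝ) ^ (-b) + δ)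
      = 48 * K1 * ((N : ℝ) ^ (1 - a) * δ) + 16 * (N * δ ^ 2) +
          4 * ((c1 ^ (-a) * (N : ℝ) ^ (-a) + δ) * (c1 ^ (-b) * (N : ℝ) ^ (-b) + δ)) := by ring
    _ ≤ 48 * K1 * (4 * (N : ℝ) ^ (-(a + b))) + 16 * (16 * (N : ℝ) ^ (-(a + b))) +
          4 * ((c1 ^ (-a) + 4) * (c1 ^ (-b) + 4) * (N : ℝ) ^ (-(a + b))) := by
        rw [← t6]
        linarith
    _ = (4 * (48 * K1 + 64) + 4 * (c1 ^ (-a) + 4) * (c1 ^ (-b) + 4)) *
          (N : ℝ) ^ (-(a + b)) := by ring
    _ ≤ _ := mul_le_mul_of_nonneg_left hfin (by positivity)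

end Pool.Agent.Spiral83
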